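import Mathlib

set_option autoImplicit false

namespace Pool.Agent.Results.MP_543b9c_al.NoBound

/-- A loop, in the signature `(·, \, /, 1)`: `ldiv a b = a\b` is the unique `x` with `a x = b`
and `rdiv b a = b/a` is the unique `x` with `x a = b`. -/
class LoopStr (Q : Type) where
  mul : Q → Q → Q
  ldiv : Q → Q → Q
  rdiv : Q → Q → Q
  one : Q
  one_mul : ∀ a, mul one a = a
  mul_one : ∀ a, mul a one = a
  mul_ldiv : ∀ a b, mul a (ldiv a b) = b
  ldiv_mul : ∀ a b, ldiv a (mul a b) = b
  rdiv_mul : ∀ b a, mul (rdiv b a) a = b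
  mul_rdiv : ∀ b a, rdiv (mul b a) a = b

open LoopStr

/-- Terms in `·, \, /` with variables from `V` and constants from `Q`. -/
inductive LPoly (Q V : Type) : Type
  | var (v : V) : LPoly Q V
  | const (c : Q) : LPoly Q V
  | mul (p q : LPoly Q V) : LPoly Q V
  | ldiv (p q : LPoly Q V) : LPoly Q V
  | rdiv (p q : LPoly Q V) : LPoly Q V

/-- The polynomial operation given by a term. -/
def LPoly.eval {Q V : Type} [LoopStr Q] (x : V → Q) : LPoly Q V → Q
  | .var v => x v
  | .const c => c
  | .mul p q => LoopStr.mul (p.eval x) (q.eval x)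
  | .ldiv p q => LoopStr.ldiv (p.eval x) (q.eval x)
  | .rdiv p q => LoopStr.rdiv (p.eval x) (q.eval x)

/-- `k`-supernilpotence: for every polynomial `p` and all tuples `a i ≠ b i` (`i < k`), `u`, `v`: if
`p (x, u) = p (x, v)` for all `x` in the product of the `{a i, b i}` except `x = b`, then also for
`x = b`. -/
def IsSN (Q : Type) [LoopStr Q] (k : ℕ) : Prop :=
  ∀ (n : Fin k → ℕ) (m : ℕ) (p : LPoly Q ((Σ i : Fin k, Fin (n i)) ⊕ Fin m))
    (a b : ∀ i : Fin k, Fin (n i) → Q) (u v : Fin m → Q), (∀ i, a i ≠ b i) →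
    (∀ s : Fin k → Bool, s ≠ (fun _ => true) →
      p.eval (Sum.elim (fun ij => if s ij.1 = true then b ij.1 ij.2 else a ij.1 ij.2) u)
        = p.eval (Sum.elim (fun ij => if s ij.1 = true then b ij.1 ij.2 else a ij.1 ij.2) v)) →
    p.eval (Sum.elim (fun ij => b ij.1 ij.2) u) = p.eval (Sum.elim (fun ij => b ij.1 ij.2) v)

/-- The supernilpotence class: the least `k ≥ 1` such that `Q` is `k`-supernilpotent, or `⊤`. -/
noncomputable def clsn (Q : Type) [LoopStr Q] : ℕ∞ :=
  sInf {c : ℕ∞ | ∃ k : ℕ, 1 ≤ k ∧ IsSN Q k ∧ c = k}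

/-- Left translation. -/
def Lt {Q : Type} [LoopStr Q] (a : Q) : Equiv.Perm Q where
  toFun x := mul a x
  invFun x := ldiv a x
  left_inv x := ldiv_mul a x
  right_inv x := mul_ldiv a x

/-- Right translation. -/
def Rt {Q : Type} [LoopStr Q] (a : Q) : Equiv.Perm Q where
  toFun x := mul x a
  invFun x := rdiv x a
  left_inv x := mul_rdiv x a
  right_inv x := rdiv_mul x a

/-- The multiplication group. -/
def Mlt (Q : Type) [LoopStr Q] : Subgroup (Equiv.Perm Q) :=
  Subgroup.closure (Set.range (Lt (Q := Q)) ∪ Set.range (Rt (Q := Q)))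

/-- A normal subloop: a subloop invariant under the stabiliser of `1` in `Mlt Q`. -/
def IsNormalSubloop {Q : Type} [LoopStr Q] (N : Set Q) : Prop :=
  (one ∈ N ∧ (∀ x ∈ N, ∀ y ∈ N, mul x y ∈ N) ∧ (∀ x ∈ N, ∀ y ∈ N, ldiv x y ∈ N) ∧
    (∀ x ∈ N, ∀ y ∈ N, rdiv x y ∈ N)) ∧
  ∀ g ∈ Mlt Q, g one = one → ∀ x ∈ N, g x ∈ N

/-- `x` and `y` lie in the same coset of `N`. -/
def CosetEq {Q : Type} [LoopStr Q] (N : Set Q) (x y : Q) : Prop := ∃ n ∈ N, x = mul y n

/-- The coset of `a` lies in the center of `Q/N`. -/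
def CentralMod {Q : Type} [LoopStr Q] (N : Set Q) (a : Q) : Prop :=
  ∀ x y : Q, CosetEq N (mul a x) (mul x a) ∧
    CosetEq N (mul a (mul x y)) (mul (mul a x) y) ∧
    CosetEq N (mul x (mul a y)) (mul (mul x a) y) ∧
    CosetEq N (mul x (mul y a)) (mul (mul x y) a)

/-- The class of central nilpotence: the least `k` for which there are normal subloops
`1 = N 0 ≤ N 1 ≤ ... ≤ N k = Q` with `N (i+1) / N i` contained in the center of `Q / N i`. -/
noncomputable def clcn (Q : Type) [LoopStr Q] : ℕ∞ :=
  sInf {c : ℕ∞ | ∃ k : ℕ, c = k ∧ ∃ N : ℕ → Set Q, N 0 = {one} ∧ N k = Set.univ ∧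
    (∀ i ≤ k, IsNormalSubloop (N i)) ∧
    ∀ i < k, N i ⊆ N (i + 1) ∧ ∀ a ∈ N (i + 1), CentralMod (N i) a}

/-! ### The examples -/

/-- the elementary abelian group of rank `m + 2`. -/
abbrev AA (m : ℕ) : Type := Fin (m + 2) → ZMod 2

/-- the all ones vector. -/
def sv (m : ℕ) : AA m := fun _ => 1

/-- the first unit vector. -/
def ev (m : ℕ) : AA m := Pi.single 0 1

/-- the cocycle: `1` at the single point `(sv, ev)`. -/
def theta {m : ℕ} (a b : AA m) : ZMod 2 := if a = sv m ∧ b = ev m then 1 else 0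

lemma sv_ne_zero (m : ℕ) : sv m ≠ 0 := by
  intro h
  have := congrFun h 0
  simp [sv] at this

lemma ev_ne_zero (m : ℕ) : ev m ≠ 0 := by
  intro h
  have := congrFun h 0
  simp [ev] at this

lemma ev_ne_sv (m : ℕ) : ev m ≠ sv m := by
  intro h
  have := congrFun h 1
  simp [ev, sv] at this

@[simp] lemma theta_zero_left {m : ℕ} (b : AA m) : theta (0 : AA m) b = 0 := by
  unfold theta
  rw [if_neg]
  rintro ⟨h, -⟩
  exact sv_ne_zero m h.symm

@[simp] lemma theta_zero_right {m : ℕ} (a : AA m) : theta a (0 : AA m) = 0 := by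
  unfold theta
  rw [if_neg]
  rintro ⟨-, h⟩
  exact ev_ne_zero m h.symm

/-- the underlying set of the example. -/
abbrev QQ (m : ℕ) : Type := ZMod 2 × AA m

/-- the central extension of `AA m` by `ZMod 2` with cocycle `theta`. -/
instance instQQ (m : ℕ) : LoopStr (QQ m) where
  mul x y := (x.1 + y.1 + theta x.2 y.2, x.2 + y.2)
  ldiv x y := (y.1 - x.1 - theta x.2 (y.2 - x.2), y.2 - x.2)
  rdiv y x := (y.1 - x.1 - theta (y.2 - x.2) x.2, y.2 - x.2)
  one := (0, 0)
  one_mul a := by ext <;> simp
  mul_one a := by ext <;> simp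
  mul_ldiv a b := by
    ext1
    · simp only [add_sub_cancel]; ring
    · simp
  ldiv_mul a b := by
    ext1
    · simp only [add_sub_cancel_left]; ring
    · simp
  rdiv_mul a b := by
    ext1
    · simp only; ring
    · simp
  mul_rdiv a b := by
    ext1
    · simp only [add_sub_cancel_right]; ring
    · simp

lemma mul_def {m : ℕ} (x y : QQ m) : mul x y = (x.1 + y.1 + theta x.2 y.2, x.2 + y.2) := rfl
lemma ldiv_def {m : ℕ} (x y : QQ m) :
    ldiv x y = (y.1 - x.1 - theta x.2 (y.2 - x.2), y.2 - x.2) := rfl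
lemma rdiv_def {m : ℕ} (x y : QQ m) :
    rdiv y x = (y.1 - x.1 - theta (y.2 - x.2) x.2, y.2 - x.2) := rfl
lemma one_def {m : ℕ} : (one : QQ m) = (0, 0) := rfl

/-! ### Upper bound: the examples are supernilpotent -/

lemma two_eq {x : ZMod 2} : x + x = 0 := CharTwo.add_self_eq_zero x

/-- the sum of a function along a long enough affine cube vanishes. -/
lemma cube_sum {k : ℕ} {V : Type} [AddCommGroup V] [Module (ZMod 2) V] [Fintype V]
    (hk : Fintype.card V < 2 ^ k) (F : V → ZMod 2) (t : V) (v : Fin k → V) :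
    ∑ c : Fin k → ZMod 2, F (t + ∑ i, c i • v i) = 0 := by
  classical
  have hcard : Fintype.card V < Fintype.card (Fin k → ZMod 2) := by
    simpa [ZMod.card] using hk
  obtain ⟨c, c', hne, heq⟩ := Fintype.exists_ne_map_eq_of_card_lt
    (fun c : Fin k → ZMod 2 => ∑ i, c i • v i) hcard
  have hw : ∑ i, (c - c') i • v i = 0 := by
    simp only [Pi.sub_apply, sub_smul, Finset.sum_sub_distrib]
    simpa [sub_eq_zero] using heq
  have hw0 : c - c' ≠ 0 := sub_ne_zero.2 hne
  refine Finset.sum_involution (fun s _ => s + (c - c')) ?_ ?_ ?_ ?_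
  · intro s _
    have : ∑ i, (s + (c - c')) i • v i = ∑ i, s i • v i := by
      simp only [Pi.add_apply, add_smul, Finset.sum_add_distrib]
      rw [show ∑ i, (c - c') i • v i = 0 from hw, add_zero]
    rw [this]
    exact two_eq
  · intro s _ _ h
    exact hw0 (by simpa using h)
  · intro s _
    exact Finset.mem_univ _
  · intro s _
    ext i
    simp only [Pi.add_apply]
    rw [add_assoc, two_eq, add_zero]

/-- environment at a corner of the cube. -/
def env {Q : Type} {k : ℕ} {n : Fin k → ℕ} {m : ℕ} (a b : ∀ i : Fin k, Fin (n i) → Q)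
    (u : Fin m → Q) (c : Fin k → ZMod 2) : (Σ i : Fin k, Fin (n i)) ⊕ Fin m → Q :=
  Sum.elim (fun ij => if c ij.1 = 1 then b ij.1 ij.2 else a ij.1 ij.2) u

/-- the invariant of polynomial operations of the example along cubes. -/
def Good {m k : ℕ} (E : (Fin k → ZMod 2) → QQ m) : Prop :=
  (∃ (t : AA m) (v : Fin k → AA m), ∀ c, (E c).2 = t + ∑ i, c i • v i) ∧ ∑ c, (E c).1 = 0

lemma zmod2_cases (x : ZMod 2) : x = 0 ∨ x = 1 := by
  revert x; decide

lemma sum_const_zero {k : ℕ} (hk : 1 ≤ k) (z : ZMod 2) :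
    ∑ _c : Fin k → ZMod 2, z = 0 := by
  rw [Finset.sum_const, Finset.card_univ, Fintype.card_fun, ZMod.card, Fintype.card_fin]
  obtain ⟨j, rfl⟩ := Nat.exists_eq_add_of_le hk
  rw [pow_add, pow_one, mul_smul, two_smul, two_eq]

lemma theta_sum {m k : ℕ} (hk : 2 * (m + 2) < k) (t t' : AA m) (v v' : Fin k → AA m) :
    ∑ c : Fin k → ZMod 2, theta (t + ∑ i, c i • v i) (t' + ∑ i, c i • v' i) = 0 := by
  have h := cube_sum (k := k) (V := AA m × AA m) (by
    simp only [Fintype.card_prod, Fintype.card_fun, ZMod.card, Fintype.card_fin]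
    rw [← pow_add]
    exact Nat.pow_lt_pow_right (by norm_num) (by omega))
    (fun x => theta x.1 x.2) (t, t') (fun i => (v i, v' i))
  rw [← h]
  refine Finset.sum_congr rfl fun c _ => ?_
  congr 1
  · simp [Prod.fst_sum]
  · simp [Prod.snd_sum]

lemma good_mul {m k : ℕ} (hk : 2 * (m + 2) < k) {E F : (Fin k → ZMod 2) → QQ m}
    (hE : Good E) (hF : Good F) : Good (fun c => mul (E c) (F c)) := by
  obtain ⟨⟨t, v, hv⟩, hs⟩ := hE
  obtain ⟨⟨t', v', hv'⟩, hs'⟩ := hF
  refine ⟨⟨t + t', fun i => v i + v' i, fun c => ?_⟩, ?_⟩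
  · simp only [mul_def, hv, hv', smul_add, Finset.sum_add_distrib]
    abel
  · simp only [mul_def, hv, hv', Finset.sum_add_distrib, hs, hs', theta_sum hk, add_zero]

lemma good_ldiv {m k : ℕ} (hk : 2 * (m + 2) < k) {E F : (Fin k → ZMod 2) → QQ m}
    (hE : Good E) (hF : Good F) : Good (fun c => ldiv (E c) (F c)) := by
  obtain ⟨⟨t, v, hv⟩, hs⟩ := hE
  obtain ⟨⟨t', v', hv'⟩, hs'⟩ := hF
  have key : ∀ c : Fin k → ZMod 2, (t' + ∑ i, c i • v' i) - (t + ∑ i, c i • v i)
      = (t' - t) + ∑ i, c i • (v' i - v i) := by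
    intro c
    simp only [smul_sub, Finset.sum_sub_distrib]
    abel
  refine ⟨⟨t' - t, fun i => v' i - v i, fun c => ?_⟩, ?_⟩
  · simp only [ldiv_def, hv, hv', key]
  · simp only [ldiv_def, hv, hv', key, Finset.sum_sub_distrib, hs, hs', theta_sum hk, sub_zero]

lemma good_rdiv {m k : ℕ} (hk : 2 * (m + 2) < k) {E F : (Fin k → ZMod 2) → QQ m}
    (hE : Good E) (hF : Good F) : Good (fun c => rdiv (E c) (F c)) := by
  obtain ⟨⟨t, v, hv⟩, hs⟩ := hE
  obtain ⟨⟨t', v', hv'⟩, hs'⟩ := hF
  have key : ∀ c : Fin k → ZMod 2, (t + ∑ i, c i • v i) - (t' + ∑ i, c i • v' i)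
      = (t - t') + ∑ i, c i • (v i - v' i) := by
    intro c
    simp only [smul_sub, Finset.sum_sub_distrib]
    abel
  refine ⟨⟨t - t', fun i => v i - v' i, fun c => ?_⟩, ?_⟩
  · simp only [rdiv_def, hv, hv', key]
  · simp only [rdiv_def, hv, hv', key, Finset.sum_sub_distrib, hs, hs', theta_sum hk, sub_zero]

lemma good_eval {m k : ℕ} (hk : 2 * (m + 2) < k) {n : Fin k → ℕ} {l : ℕ}
    (p : LPoly (QQ m) ((Σ i : Fin k, Fin (n i)) ⊕ Fin l))
    (a b : ∀ i : Fin k, Fin (n i) → QQ m) (u : Fin l → QQ m) :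
    Good (fun c => p.eval (env a b u c)) := by
  induction p with
  | var x =>
    rcases x with ⟨i, j⟩ | j
    · have h1 : ∀ c : Fin k → ZMod 2, (LPoly.var (Sum.inl ⟨i, j⟩) :
          LPoly (QQ m) ((Σ i : Fin k, Fin (n i)) ⊕ Fin l)).eval (env a b u c)
          = a i j + c i • (b i j - a i j) := by
        intro c
        simp only [LPoly.eval, env, Sum.elim_inl]
        rcases zmod2_cases (c i) with h | h
        · simp [h]
        · simp [h]
      simp only [h1]
      refine ⟨⟨(a i j).2, Pi.single i (b i j - a i j).2, fun c => ?_⟩, ?_⟩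
      · rw [Finset.sum_eq_single i]
        · simp
        · intro i' _ hne
          simp [Pi.single_eq_of_ne hne]
        · simp
      · have h2 : ∀ c : Fin k → ZMod 2, (a i j + c i • (b i j - a i j)).1
            = (a i j).1 + c i * (b i j - a i j).1 := by
          intro c
          simp
        simp only [h2, Finset.sum_add_distrib]
        rw [sum_const_zero (by omega), zero_add]
        have := cube_sum (k := k) (V := ZMod 2) (by
          rw [ZMod.card]
          have h1k : 1 < k := by omega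
          calc 2 = 2 ^ 1 := by norm_num
            _ < 2 ^ k := Nat.pow_lt_pow_right (by norm_num) h1k)
          (fun x => x * (b i j - a i j).1) 0 (Pi.single i 1)
        rw [← this]
        refine Finset.sum_congr rfl fun c _ => ?_
        congr 1
        rw [zero_add, Finset.sum_eq_single i]
        · simp
        · intro i' _ hne
          simp [Pi.single_eq_of_ne hne]
        · simp
    · simp only [LPoly.eval, env, Sum.elim_inr]
      exact ⟨⟨(u j).2, 0, fun c => by simp⟩, sum_const_zero (by omega) _⟩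
  | const x =>
    have h1k : 1 ≤ k := by omega
    exact ⟨⟨x.2, 0, fun c => by simp [LPoly.eval]⟩, sum_const_zero h1k x.1⟩
  | mul p q hp hq => exact good_mul hk hp hq
  | ldiv p q hp hq => exact good_ldiv hk hp hq
  | rdiv p q hp hq => exact good_rdiv hk hp hq

lemma isSN_QQ (m k : ℕ) (hk : 2 * (m + 2) < k) : IsSN (QQ m) k := by
  classical
  intro n l p a b u v _ hyp
  have hyp' : ∀ c : Fin k → ZMod 2, c ≠ 1 → p.eval (env a b u c) = p.eval (env a b v c) := by
    intro c hc
    have := hyp (fun i => decide (c i = 1)) (by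
      intro h
      apply hc
      ext i
      have := congrFun h i
      simpa using this)
    simpa [env] using this
  have hone : ∀ w : Fin l → QQ m, (Sum.elim (fun ij => b ij.1 ij.2) w :
      (Σ i : Fin k, Fin (n i)) ⊕ Fin l → QQ m) = env a b w 1 := by
    intro w
    simp [env]
  rw [hone, hone]
  obtain ⟨⟨t, x, hx⟩, hs⟩ := good_eval hk p a b u
  obtain ⟨⟨t', x', hx'⟩, hs'⟩ := good_eval hk p a b v
  ext1
  · -- central parts
    have e1 : ∑ c, ((p.eval (env a b u c)).1 - (p.eval (env a b v c)).1) = 0 := by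
      rw [Finset.sum_sub_distrib, hs, hs', sub_zero]
    rw [Finset.sum_eq_single (1 : Fin k → ZMod 2)] at e1
    · exact sub_eq_zero.1 e1
    · intro c _ hc
      rw [hyp' c hc, sub_self]
    · simp
  · have h0 : t = t' := by
      have h1 := hx 0
      have h2 := hx' 0
      have h3 := hyp' 0 (by
        intro h
        have := congrFun h ⟨0, by omega⟩
        simp at this)
      simp only [Pi.zero_apply, zero_smul, Finset.sum_const_zero, add_zero] at h1 h2
      rw [← h1, ← h2, h3]
    have hi : ∀ i, x i = x' i := by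
      intro i
      have h1 := hx (Pi.single i 1)
      have h2 := hx' (Pi.single i 1)
      have hne : (Pi.single i 1 : Fin k → ZMod 2) ≠ 1 := by
        intro h
        have hj : ∃ j : Fin k, j ≠ i := by
          by_cases hi : (i : ℕ) = 0
          · exact ⟨⟨1, by omega⟩, fun h => by rw [← h] at hi; simp at hi⟩
          · exact ⟨⟨0, by omega⟩, fun h => hi (by rw [← h])⟩
        obtain ⟨j, hj⟩ := hj
        have := congrFun h j
        simp [Pi.single_eq_of_ne hj] at this
      have h3 := hyp' _ hne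
      have e : ∀ y : Fin k → AA m, ∑ j, (Pi.single i 1 : Fin k → ZMod 2) j • y j = y i := by
        intro y
        rw [Finset.sum_eq_single i]
        · simp
        · intro j _ hj
          simp [Pi.single_eq_of_ne hj]
        · simp
      rw [e] at h1 h2
      have h4 : t + x i = t' + x' i := by
        rw [← h1, ← h2]
        change (LPoly.eval _ p).2 = (LPoly.eval _ p).2
        rw [h3]
      rw [h0] at h4
      exact add_left_cancel h4
    have h1 := hx 1
    have h2 := hx' 1
    rw [h1, h2, h0]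
    simp [hi]

/-! ### Lower bound -/

/-- the nested product of variables. -/
def prodPoly {Q V : Type} [LoopStr Q] : List V → LPoly Q V
  | [] => .const one
  | x :: xs => .mul (.var x) (prodPoly xs)

lemma prodPoly_snd {m : ℕ} {V : Type} (xs : List V) (x : V → QQ m) :
    ((prodPoly xs).eval x).2 = (xs.map (fun v => (x v).2)).sum := by
  induction xs with
  | nil => simp [prodPoly, LPoly.eval, one_def]
  | cons y ys ih => simp [prodPoly, LPoly.eval, mul_def, ih]

/-- commutator polynomial. -/
def commPoly {Q V : Type} (p q : LPoly Q V) : LPoly Q V :=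
  .rdiv (.mul p q) (.mul q p)

lemma commPoly_eval {m : ℕ} {V : Type} (p q : LPoly (QQ m) V) (x : V → QQ m) :
    (commPoly p q).eval x = (theta (p.eval x).2 (q.eval x).2 - theta (q.eval x).2 (p.eval x).2, 0) := by
  simp only [commPoly, LPoly.eval, mul_def, rdiv_def]
  ext1
  · simp only
    rw [show (p.eval x).2 + (q.eval x).2 - ((q.eval x).2 + (p.eval x).2) = 0 by abel]
    rw [theta_zero_left]
    ring
  · simp only
    abel

/-- the blocks. -/
def blk (m k : ℕ) (i : Fin k) : AA m := fun j => if min (j : ℕ) (k - 1) = i then 1 else 0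

lemma blk_sum (m k : ℕ) (s : Fin k → Bool) :
    (∑ i : Fin k, (if s i = true then blk m k i else 0)) =
      fun j : Fin (m + 2) => ∑ i : Fin k, if s i = true ∧ min (j : ℕ) (k - 1) = i then 1 else 0 := by
  ext j
  rw [Finset.sum_apply]
  refine Finset.sum_congr rfl fun i _ => ?_
  by_cases h : s i = true
  · simp [h, blk]
  · simp [h]

lemma blk_sum_true (m k : ℕ) (hk : 1 ≤ k) :
    (∑ i : Fin k, blk m k i) = sv m := by
  ext j
  rw [Finset.sum_apply]
  rw [Finset.sum_eq_single (⟨min (j : ℕ) (k - 1), by omega⟩ : Fin k)]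
  · simp [blk, sv]
  · intro i _ hi
    have : ¬ (min (j : ℕ) (k - 1) = i) := by
      intro h
      apply hi
      ext
      exact h.symm
    simp only [blk, if_neg this]
  · simp

lemma blk_sum_ne (m k : ℕ) (hk2 : k ≤ m + 2) (s : Fin k → Bool)
    (hs : s ≠ fun _ => true) :
    (∑ i : Fin k, (if s i = true then blk m k i else 0)) ≠ sv m := by
  intro h
  obtain ⟨i₀, hi₀⟩ : ∃ i, s i ≠ true := by
    by_contra hcon
    push Not at hcon
    exact hs (funext hcon)
  rw [blk_sum] at h
  have := congrFun h ⟨i₀, by omega⟩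
  simp only [sv] at this
  rw [Finset.sum_eq_zero] at this
  · simp at this
  · intro i _
    rw [if_neg]
    rintro ⟨h1, h2⟩
    have h3 : min (i₀ : ℕ) (k - 1) = i₀ := by omega
    rw [h3] at h2
    have : i₀ = i := Fin.ext h2
    rw [this] at hi₀
    exact hi₀ h1

lemma not_isSN_QQ (m k : ℕ) (hk : 1 ≤ k) (hk2 : k ≤ m + 2) : ¬ IsSN (QQ m) k := by
  classical
  intro H
  let vars : List ((Σ _ : Fin k, Fin 1) ⊕ Fin 1) := List.ofFn (fun i : Fin k => Sum.inl ⟨i, 0⟩)
  have key := H (fun _ => 1) 1 (commPoly (prodPoly vars) (.var (Sum.inr 0)))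
    (fun _ _ => one) (fun i _ => (0, blk m k i)) (fun _ => one) (fun _ => (0, ev m)) ?_ ?_
  · rw [commPoly_eval, commPoly_eval, prodPoly_snd, prodPoly_snd] at key
    simp only [vars, List.map_ofFn, List.sum_ofFn, Function.comp_def, Sum.elim_inl, LPoly.eval,
      Sum.elim_inr, one_def, theta_zero_left, theta_zero_right] at key
    rw [blk_sum_true m k hk] at key
    have h1 : theta (sv m) (ev m) = 1 := by simp [theta]
    have h2 : theta (ev m) (sv m) = 0 := by
      unfold theta
      rw [if_neg]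
      rintro ⟨h, -⟩
      exact ev_ne_sv m h
    rw [h1, h2] at key
    simp at key
  · intro i h
    have h1 := congrFun h 0
    have h2 : blk m k i = 0 := by
      have := congrArg Prod.snd h1
      simpa [one_def] using this.symm
    have h3 := congrFun h2 ⟨i, by omega⟩
    have h4 : min (i : ℕ) (k - 1) = i := by omega
    simp [blk, h4] at h3
  · intro s hs
    rw [commPoly_eval, commPoly_eval, prodPoly_snd, prodPoly_snd]
    simp only [vars, List.map_ofFn, List.sum_ofFn, Function.comp_def, Sum.elim_inl, LPoly.eval,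
      Sum.elim_inr, one_def, theta_zero_left, theta_zero_right]
    have e : (∑ i : Fin k, (if s i = true then ((0 : ZMod 2), blk m k i) else (0, 0)).2)
        = ∑ i : Fin k, (if s i = true then blk m k i else 0) := by
      refine Finset.sum_congr rfl fun i _ => ?_
      split_ifs <;> rfl
    rw [e]
    have hne := blk_sum_ne m k hk2 s hs
    have h1 : theta (∑ i : Fin k, (if s i = true then blk m k i else 0)) (ev m) = 0 := by
      unfold theta
      rw [if_neg]
      rintro ⟨h, -⟩
      exact hne h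
    have h2 : theta (ev m) (∑ i : Fin k, (if s i = true then blk m k i else 0)) = 0 := by
      unfold theta
      rw [if_neg]
      rintro ⟨h, -⟩
      exact ev_ne_sv m h
    rw [h1, h2]

/-! ### Central nilpotence class -/

lemma mlt_form {m : ℕ} {g : Equiv.Perm (QQ m)} (hg : g ∈ Mlt (QQ m)) :
    ∃ (F : AA m → ZMod 2) (t : AA m), ∀ x : QQ m, g x = (x.1 + F x.2, x.2 + t) := by
  unfold Mlt at hg
  induction hg using Subgroup.closure_induction with
  | mem g hg =>
    rcases hg with ⟨a, rfl⟩ | ⟨a, rfl⟩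
    · refine ⟨fun b => a.1 + theta a.2 b, a.2, fun x => ?_⟩
      change mul a x = _
      rw [mul_def]
      ext1
      · simp only; ring
      · simp only; abel
    · refine ⟨fun b => a.1 + theta b a.2, a.2, fun x => ?_⟩
      change mul x a = _
      rw [mul_def]
      ext1
      · simp only; ring
      · simp only
  | one => exact ⟨0, 0, fun x => by simp⟩
  | mul g h _ _ ihg ihh =>
    obtain ⟨F, t, hF⟩ := ihg
    obtain ⟨G, s, hG⟩ := ihh
    refine ⟨fun b => G b + F (b + s), s + t, fun x => ?_⟩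
    rw [Equiv.Perm.mul_apply, hG, hF]
    ext1
    · simp only; ring
    · simp only; abel
  | inv g _ ih =>
    obtain ⟨F, t, hF⟩ := ih
    refine ⟨fun b => - F (b - t), -t, fun x => ?_⟩
    rw [Equiv.Perm.inv_eq_iff_eq, hF]
    ext1
    · simp only
      rw [show x.2 + -t = x.2 - t by abel]
      ring
    · simp only; abel

/-- the central subloop. -/
def ZZ (m : ℕ) : Set (QQ m) := {x | x.2 = 0}

lemma normal_ZZ (m : ℕ) : IsNormalSubloop (ZZ m) := by
  refine ⟨⟨rfl, ?_, ?_, ?_⟩, ?_⟩
  · intro x hx y hy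
    simp only [ZZ, Set.mem_ofPred_eq] at *
    simp [mul_def, hx, hy]
  · intro x hx y hy
    simp only [ZZ, Set.mem_ofPred_eq] at *
    simp [ldiv_def, hx, hy]
  · intro x hx y hy
    simp only [ZZ, Set.mem_ofPred_eq] at *
    simp [rdiv_def, hx, hy]
  · intro g hg h1 x hx
    obtain ⟨F, t, hF⟩ := mlt_form hg
    have : t = 0 := by
      have := hF one
      rw [h1] at this
      have := congrArg Prod.snd this
      simpa [one_def] using this.symm
    simp only [ZZ, Set.mem_ofPred_eq] at *
    rw [hF, this, hx]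
    simp

lemma normal_one (Q : Type) [LoopStr Q] : IsNormalSubloop ({one} : Set Q) := by
  refine ⟨⟨rfl, ?_, ?_, ?_⟩, ?_⟩
  · rintro x rfl y rfl
    exact LoopStr.one_mul _
  · rintro x rfl y rfl
    have := ldiv_mul (one : Q) one
    rwa [LoopStr.one_mul] at this
  · rintro x rfl y rfl
    have := mul_rdiv (one : Q) one
    rwa [LoopStr.one_mul] at this
  · rintro g _ h x rfl
    exact h

lemma normal_univ (Q : Type) [LoopStr Q] : IsNormalSubloop (Set.univ : Set Q) := by
  refine ⟨⟨trivial, ?_, ?_, ?_⟩, ?_⟩ <;> intros <;> trivial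

lemma coset_one {Q : Type} [LoopStr Q] {x y : Q} (h : x = y) : CosetEq ({one} : Set Q) x y :=
  ⟨one, rfl, by rw [h, LoopStr.mul_one]⟩

lemma coset_ZZ {m : ℕ} {x y : QQ m} (h : x.2 = y.2) : CosetEq (ZZ m) x y := by
  refine ⟨(x.1 - y.1, 0), rfl, ?_⟩
  rw [mul_def]
  ext1
  · simp
  · simp [h]

lemma clcn_QQ (m : ℕ) : clcn (QQ m) = 2 := by
  apply le_antisymm
  · apply sInf_le
    refine ⟨2, by norm_num, fun i => if i = 0 then {one} else if i = 1 then ZZ m else Set.univ,
      by simp, by simp, ?_, ?_⟩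
    · intro i hi
      interval_cases i
      · simpa using normal_one (QQ m)
      · simpa using normal_ZZ m
      · simpa using normal_univ (QQ m)
    · intro i hi
      interval_cases i
      · refine ⟨?_, ?_⟩
        · intro x hx
          simp only [if_true, Set.mem_singleton_iff] at hx
          rw [hx]
          simp [ZZ, one_def]
        · intro a ha x y
          have ha' : a.2 = 0 := by simpa [ZZ] using ha
          simp only [if_true]
          refine ⟨coset_one ?_, coset_one ?_, coset_one ?_, coset_one ?_⟩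
          · simp only [mul_def, ha', theta_zero_left, theta_zero_right]
            ext1
            · simp only; ring
            · simp only; abel
          · simp only [mul_def, ha', theta_zero_left, theta_zero_right, zero_add]
            ext1
            · simp only; ring
            · simp only
          · simp only [mul_def, ha', theta_zero_left, theta_zero_right, zero_add, add_zero]
            ext1
            · simp only; ring
            · simp only
          · simp only [mul_def, ha', theta_zero_left, theta_zero_right, zero_add, add_zero]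
            ext1
            · simp only; ring
            · simp only
      · refine ⟨?_, ?_⟩
        · intro x _
          simp
        · intro a _ x y
          simp only [one_ne_zero, if_false, if_true]
          refine ⟨coset_ZZ ?_, coset_ZZ ?_, coset_ZZ ?_, coset_ZZ ?_⟩ <;>
            · simp only [mul_def]
              abel
  · apply le_sInf
    rintro c ⟨k, rfl, N, h0, hk, -, hN⟩
    have hk0 : k ≠ 0 := by
      rintro rfl
      rw [h0] at hk
      have : ((1, 0) : QQ m) ∈ ({one} : Set (QQ m)) := by rw [hk]; trivial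
      simp [one_def] at this
    have hk1 : k ≠ 1 := by
      rintro rfl
      have h1 := (hN 0 (by norm_num)).2 (0, sv m) (by
        rw [show (0 + 1 : ℕ) = 1 by norm_num, hk]; trivial) (0, ev m) one
      obtain ⟨n, hn, heq⟩ := h1.1
      rw [h0] at hn
      rw [Set.mem_singleton_iff.1 hn, LoopStr.mul_one] at heq
      simp only [mul_def] at heq
      have h2 := congrArg Prod.fst heq
      simp only at h2
      have h3 : theta (sv m) (ev m) = 1 := by simp [theta]
      have h4 : theta (ev m) (sv m) = 0 := by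
        unfold theta
        rw [if_neg]
        rintro ⟨h, -⟩
        exact ev_ne_sv m h
      rw [h3, h4] at h2
      simp at h2
    have : 2 ≤ k := by omega
    exact_mod_cast this

lemma clsn_lt (m : ℕ) : clsn (QQ m) < ⊤ := by
  refine lt_of_le_of_lt (sInf_le ⟨2 * (m + 2) + 1, by omega, isSN_QQ m _ (by omega), rfl⟩) ?_
  exact ENat.natCast_lt_top _

lemma lt_clsn (m : ℕ) : ((m + 2 : ℕ) : ℕ∞) < clsn (QQ m) := by
  have : ((m + 3 : ℕ) : ℕ∞) ≤ clsn (QQ m) := by
    apply le_sInf
    rintro c ⟨k, hk, hSN, rfl⟩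
    by_contra hcon
    push Not at hcon
    have hk' : k < m + 3 := by exact_mod_cast hcon
    exact not_isSN_QQ m k hk (by omega) hSN
  refine lt_of_lt_of_le ?_ this
  exact_mod_cast Nat.lt_succ_self _

/-- Negative answer to Q1: already at central nilpotence class `2` the supernilpotence classes of
(finite) supernilpotent loops are unbounded, so no function `f` with `clsn Q ≤ f (clcn Q)` for all
supernilpotent loops exists. -/
theorem result :
    (∀ m : ℕ, ∃ (Q : Type) (_ : LoopStr Q), Finite Q ∧ clcn Q = 2 ∧ (m : ℕ∞) < clsn Q ∧ clsn Q < ⊤) ∧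
    ¬ ∃ f : ℕ → ℕ, ∀ (Q : Type) (_ : LoopStr Q) (n : ℕ), clsn Q < ⊤ → clcn Q = n → clsn Q ≤ f n := by
  have A : ∀ m : ℕ, ∃ (Q : Type) (_ : LoopStr Q),
      Finite Q ∧ clcn Q = 2 ∧ (m : ℕ∞) < clsn Q ∧ clsn Q < ⊤ := by
    intro m
    refine ⟨QQ m, instQQ m, inferInstance, clcn_QQ m, ?_, clsn_lt m⟩
    refine lt_of_le_of_lt ?_ (lt_clsn m)
    exact_mod_cast (by omega : m ≤ m + 2)
  refine ⟨A, ?_⟩
  rintro ⟨f, hf⟩
  obtain ⟨Q, inst, -, h2, h3, h4⟩ := A (f 2)
  have := hf Q inst 2 h4 (by rw [h2]; norm_num)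
  exact absurd (lt_of_lt_of_le h3 this) (lt_irrefl _)

end Pool.Agent.Results.MP_543b9c_al.NoBound
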